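import Pool.Agent.TH388.GM.Step

/-!
Generalized Minkowski arrangements of discs of order `μ`, `√3 - 1 < μ < 1`: the density of the
hexagonal arrangement relative to its union is not the largest density. For every such `μ` there is
a `μ`-arrangement of positive homogeneity with `δ(F) > δ_U(F_hex(μ))`.
-/

namespace Pool.Agent.Results.MP_40d282_co.HexNotOptimal

open MeasureTheory Metric Set Filter Topology

/-- `(B_i)`, `B_i` the open disc with centre `x i` and radius `ρ i`, is a generalized Minkowski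
arrangement of order `μ` (a `μ`-arrangement): the radii are positive and
`|x_i - x_j| ≥ max (ρ_i + μ ρ_j, ρ_j + μ ρ_i)` for `i ≠ j`. -/
def IsArrangement {ι : Type} (μ : ℝ) (x : ι → ℂ) (ρ : ι → ℝ) : Prop :=
  (∀ i, 0 < ρ i) ∧ ∀ i j, i ≠ j → max (ρ i + μ * ρ j) (ρ j + μ * ρ i) ≤ ‖x i - x j‖

/-- positive homogeneity: the radii are bounded away from `0` and from `∞` -/
def PositiveHomogeneity {ι : Type} (ρ : ι → ℝ) : Prop :=
  ∃ a b : ℝ, 0 < a ∧ ∀ i, a ≤ ρ i ∧ ρ i ≤ b

/-- the upper density `δ(F) = limsup_{R → ∞} Σ(R) / (π R²)`, `Σ(R)` the total area of the members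
with centres in the closed disc of radius `R` about the origin -/
noncomputable def density {ι : Type} (x : ι → ℂ) (ρ : ι → ℝ) : ENNReal :=
  limsup (fun R : ℝ => (∑' i : {i // ‖x i‖ ≤ R}, volume (ball (x i) (ρ i))) /
    ENNReal.ofReal (Real.pi * R ^ 2)) atTop

/-- the density relative to the union, `δ_U(F) = limsup_{R → ∞} A(R) / V(R)`: `A(R)` is the sum of
the areas of the members contained in the closed disc of radius `R` about the origin and `V(R)` is
the area of the union of these members -/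
noncomputable def densityU {ι : Type} (x : ι → ℂ) (ρ : ι → ℝ) : ENNReal :=
  limsup (fun R : ℝ =>
    (∑' i : {i // ball (x i) (ρ i) ⊆ closedBall 0 R}, volume (ball (x i) (ρ i))) /
    volume (⋃ i : {i // ball (x i) (ρ i) ⊆ closedBall 0 R}, ball (x i) (ρ i))) atTop

/-- the points `m u + n v` of the hexagonal lattice, `u = 1`, `v = 1/2 + (√3/2) i` -/
noncomputable def hexCentre (l : ℤ × ℤ) : ℂ := l.1 * 1 + l.2 * (1 / 2 + (√3 / 2) * Complex.I)

/-- all discs of `F_hex(μ)` have radius `1/(1+μ)` -/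
noncomputable def hexRadius (μ : ℝ) (_ : ℤ × ℤ) : ℝ := 1 / (1 + μ)

open Pool.Agent.TH388.GM

theorem hexCentre_eq (l : ℤ × ℤ) : hexCentre l = lat l := by
  apply Complex.ext
  · simp [hexCentre, lat]; ring
  · simp [hexCentre, lat]

theorem hex_le {μ : ℝ} (h : Ad μ) :
    densityU hexCentre (hexRadius μ) ≤ ENNReal.ofReal (Real.pi * rr μ ^ 2 / w μ) := by
  unfold densityU
  apply limsup_le_of_le
  · isBoundedDefault
  · refine Eventually.of_forall fun R => ?_
    apply ENNReal.div_le_of_le_mul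
    have hw := w_pos h
    have e1 : ∀ l : ℤ × ℤ, volume (ball (hexCentre l) (hexRadius μ l)) =
        ENNReal.ofReal (Real.pi * rr μ ^ 2 / w μ) * volume (O0 μ) := by
      intro l
      have h1 : volume (O0 μ) = ENNReal.ofReal (w μ) := by
        unfold w; rw [measureReal_def, ENNReal.ofReal_toReal O0_ne_top]
      have h2 : volume (ball (hexCentre l) (hexRadius μ l)) = ENNReal.ofReal (Real.pi * rr μ ^ 2) := by
        have := vol_ball (hexCentre l) (r := hexRadius μ l) (rr_pos h).le
        rw [measureReal_def] at this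
        change (volume (ball (hexCentre l) (hexRadius μ l))).toReal = Real.pi * rr μ ^ 2 at this
        rw [← this, ENNReal.ofReal_toReal (ball_ne_top _ _)]
      have := Real.pi_pos
      rw [h1, h2, ← ENNReal.ofReal_mul (by positivity), div_mul_cancel₀ _ hw.ne']
    simp_rw [e1]
    rw [ENNReal.tsum_mul_left]
    gcongr
    refine (union_ge h {l | ball (hexCentre l) (hexRadius μ l) ⊆ closedBall 0 R}).trans ?_
    apply measure_mono
    apply iUnion_mono
    intro l
    unfold B
    rw [hexCentre_eq]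
    exact subset_rfl

theorem le_density {ι : Type} [Fintype ι] (x : ι → ℂ) (ρ : ι → ℝ) (hρ : ∀ i, 0 < ρ i) :
    ENNReal.ofReal ((∑ i, Real.pi * ρ i ^ 2) / p) ≤ density (pX x) (pR ρ) := by
  classical
  have hp := p_pos
  have hpi := Real.pi_pos
  set t := ∑ i, Real.pi * ρ i ^ 2 with ht
  have ht0 : 0 ≤ t := Finset.sum_nonneg fun i _ => by positivity
  set C := ∑ i, ‖x i‖ with hC
  have hC0 : 0 ≤ C := Finset.sum_nonneg fun i _ => norm_nonneg _
  have hCi : ∀ i, ‖x i‖ ≤ C := fun i =>
    Finset.single_le_sum (f := fun i => ‖x i‖) (fun i _ => norm_nonneg _) (Finset.mem_univ i)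
  set g : ℝ → ENNReal := fun R => ENNReal.ofReal (t / p * ((R - (C + 2)) / R) ^ 2) with hg
  have hlim : Tendsto g atTop (𝓝 (ENNReal.ofReal (t / p))) := by
    apply ENNReal.tendsto_ofReal
    have h1 : Tendsto (fun R : ℝ => (R - (C + 2)) / R) atTop (𝓝 1) := by
      have h2 : Tendsto (fun R : ℝ => 1 - (C + 2) / R) atTop (𝓝 (1 - 0)) :=
        tendsto_const_nhds.sub (tendsto_const_nhds.div_atTop tendsto_id)
      rw [sub_zero] at h2
      refine h2.congr' ?_
      filter_upwards [eventually_gt_atTop 0] with R hR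
      field_simp
    have h3 := (h1.pow 2).const_mul (t / p)
    simpa using h3
  rw [← hlim.limsup_eq]
  unfold density
  refine limsup_le_limsup (h := ?_)
  · filter_upwards [eventually_gt_atTop (C + 2)] with R hR
    have hR0 : 0 < R := by linarith
    rw [ENNReal.le_div_iff_mul_le (Or.inl (by simp; positivity)) (Or.inl ENNReal.ofReal_ne_top)]
    set J : Set (ℤ × ℤ) := {l | ∃ z, ‖z‖ ≤ R - (C + 2) ∧ z ∈ cell l} with hJ
    -- the members with index in `J × ι` have centres in the disc
    have hin : ∀ (l : J) (i : ι), ‖pX x (l, i)‖ ≤ R := by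
      rintro ⟨l, z, hz, hzl⟩ i
      simp only [pX]
      have h1 := dist_cell hzl
      have h2 : ‖lat l‖ ≤ ‖z‖ + ‖z - lat l‖ := by
        have := norm_sub_le z (z - lat l)
        rwa [sub_sub_cancel] at this
      have h3 := norm_add_le (x i) (lat l)
      have h4 := hCi i
      linarith
    have hinj : Function.Injective (fun q : J × ι =>
        (⟨((q.1 : ℤ × ℤ), q.2), hin q.1 q.2⟩ : {i // ‖pX x i‖ ≤ R})) := by
      rintro ⟨⟨l, hl⟩, i⟩ ⟨⟨l', hl'⟩, i'⟩ he
      simp only [Subtype.mk.injEq, Prod.mk.injEq] at he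
      obtain ⟨rfl, rfl⟩ := he
      rfl
    have h1 := ENNReal.tsum_comp_le_tsum_of_injective hinj
      (fun i : {i // ‖pX x i‖ ≤ R} => volume (ball (pX x i) (pR ρ i)))
    refine le_trans ?_ h1
    simp only
    have hball : ∀ (q : J × ι), volume (ball (pX x ((q.1 : ℤ × ℤ), q.2)) (pR ρ ((q.1 : ℤ × ℤ), q.2))) =
        ENNReal.ofReal (Real.pi * ρ q.2 ^ 2) := by
      intro q
      have := vol_ball (pX x ((q.1 : ℤ × ℤ), q.2)) (hρ q.2).le
      rw [measureReal_def] at this
      rw [← this, ENNReal.ofReal_toReal (ball_ne_top _ _)]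
      rfl
    simp_rw [hball]
    rw [ENNReal.tsum_prod (f := fun (_ : J) (i : ι) => ENNReal.ofReal (Real.pi * ρ i ^ 2))]
    simp_rw [tsum_fintype]
    rw [← ENNReal.ofReal_sum_of_nonneg (fun i _ => by positivity), ← ht]
    have hcell : ENNReal.ofReal t = ENNReal.ofReal (t / p) * volume (cell 0) := by
      have h1 : volume (cell 0) = ENNReal.ofReal p := by
        unfold p; rw [measureReal_def, ENNReal.ofReal_toReal volume_cell_zero_ne_top]
      rw [h1, ← ENNReal.ofReal_mul (by positivity), div_mul_cancel₀ _ hp.ne']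
    rw [hcell, ENNReal.tsum_mul_left]
    have hcov : volume (closedBall (0:ℂ) (R - (C + 2))) ≤ ∑' _ : J, volume (cell 0) := by
      have h1 : closedBall (0:ℂ) (R - (C + 2)) ⊆ ⋃ l : J, cell l := by
        intro z hz
        rw [mem_closedBall, dist_zero_right] at hz
        exact mem_iUnion.2 ⟨⟨fl z, z, hz, rfl⟩, rfl⟩
      refine (measure_mono h1).trans ((measure_iUnion_le _).trans ?_)
      simp_rw [volume_cell]
      exact le_rfl
    have hvol : volume (closedBall (0:ℂ) (R - (C + 2))) =
        ENNReal.ofReal (Real.pi * (R - (C + 2)) ^ 2) := by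
      rw [Complex.volume_closedBall, mul_comm Real.pi, ENNReal.ofReal_mul (by positivity),
        ENNReal.ofReal_pow (by linarith)]
      congr 1
      exact (ENNReal.ofReal_coe_nnreal (p := NNReal.pi)).symm
    calc ENNReal.ofReal (t / p * ((R - (C + 2)) / R) ^ 2) * ENNReal.ofReal (Real.pi * R ^ 2)
        = ENNReal.ofReal (t / p) * ENNReal.ofReal (Real.pi * (R - (C + 2)) ^ 2) := by
          rw [← ENNReal.ofReal_mul (by positivity), ← ENNReal.ofReal_mul (by positivity)]
          congr 1
          field_simp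
      _ ≤ _ := by
          rw [← hvol]
          gcongr

/-- For every `μ` with `√3 - 1 < μ < 1` there is a `μ`-arrangement `F` of positive homogeneity in
the plane with `δ(F) > δ_U(F_hex(μ))`. -/
theorem result : ∀ μ : ℝ, √3 - 1 < μ → μ < 1 →
    ∃ (ι : Type) (_ : Countable ι) (x : ι → ℂ) (ρ : ι → ℝ),
      IsArrangement μ x ρ ∧ PositiveHomogeneity ρ ∧
      densityU hexCentre (hexRadius μ) < density x ρ := by
  intro μ h1 h2
  have h : Ad μ := ⟨h1, h2⟩
  obtain ⟨t, ⟨ι, _, x, ρ, hA, rfl⟩, hlt⟩ := exists_dense h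
  have hρ : ∀ i, 0 < ρ i := fun i => hA.1 (0, i)
  refine ⟨(ℤ × ℤ) × ι, inferInstance, pX x, pR ρ, hA, ?_, ?_⟩
  · rcases isEmpty_or_nonempty ι with hι | hι
    · exact ⟨1, 1, one_pos, fun i => (hι.false i.2).elim⟩
    · obtain ⟨i0, h0⟩ := Finite.exists_min ρ
      obtain ⟨i1, h1⟩ := Finite.exists_max ρ
      exact ⟨ρ i0, ρ i1, hρ i0, fun i => ⟨h0 _, h1 _⟩⟩
  · refine lt_of_le_of_lt (hex_le h) (lt_of_lt_of_le ?_ (le_density x ρ hρ))
    rw [ENNReal.ofReal_lt_ofReal_iff_of_nonneg]
    · exact hlt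
    · have := w_pos h
      have := Real.pi_pos
      positivity

end Pool.Agent.Results.MP_40d282_co.HexNotOptimal
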